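import Pool.Agent.Run7.h242.SC.Iface

/-!
# Project SC (helper242), pieces NUA and NUB, by helper648
-/

set_option autoImplicit false

namespace Run7.h648.SC

open Run7.h242.SC Set Filter Topology Metric

/-- push a loop into a convex set, then contract -/
theorem null_of_push (S K P : Set (ℂ × ℝ)) (hK : Convex ℝ K) (hKS : K ⊆ S) (γ : ℝ → ℂ × ℝ)
    (D : ℝ × (ℂ × ℝ) → ℂ × ℝ) (hγ : ContinuousOn γ (Icc 0 1)) (hcl : γ 0 = γ 1)
    (hP : ∀ t ∈ Icc (0 : ℝ) 1, γ t ∈ P) (hD : ContinuousOn D (Icc (0 : ℝ) 1 ×ˢ P))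
    (hDS : ∀ s ∈ Icc (0 : ℝ) 1, ∀ w ∈ P, D (s, w) ∈ S) (hD0 : ∀ w ∈ P, D (0, w) = w)
    (hD1 : ∀ w ∈ P, D (1, w) ∈ K) : NullIn S γ := by
  have hm : ∀ s ∈ Icc (0 : ℝ) 1, min (2 * s) 1 ∈ Icc (0 : ℝ) 1 := by
    intro s hs
    exact ⟨le_min (by linarith [hs.1]) zero_le_one, min_le_right _ _⟩
  have h0 : (0 : ℝ) ∈ Icc (0 : ℝ) 1 := ⟨le_refl _, zero_le_one⟩
  have h1 : (1 : ℝ) ∈ Icc (0 : ℝ) 1 := ⟨zero_le_one, le_refl _⟩
  refine ⟨fun p => (1 - max (2 * p.1 - 1) 0) • D (min (2 * p.1) 1, γ p.2) +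
    max (2 * p.1 - 1) 0 • D (1, γ 0), ?_, ?_, ?_, ?_, ?_⟩
  · have hc : ContinuousOn (fun p : ℝ × ℝ => max (2 * p.1 - 1) 0) (Icc 0 1 ×ˢ Icc 0 1) := by
      fun_prop
    have hd : ContinuousOn (fun p : ℝ × ℝ => D (min (2 * p.1) 1, γ p.2)) (Icc 0 1 ×ˢ Icc 0 1) := by
      apply hD.comp
      · apply ContinuousOn.prodMk
        · fun_prop
        · exact hγ.comp continuousOn_snd (fun p hp => hp.2)
      · intro p hp
        exact ⟨hm p.1 hp.1, hP p.2 hp.2⟩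
    exact ((continuousOn_const.sub hc).smul hd).add (hc.smul continuousOn_const)
  · rintro ⟨s, t⟩ ⟨hs, ht⟩
    simp only at hs ht ⊢
    by_cases h : s ≤ 1 / 2
    · rw [max_eq_right (by linarith : 2 * s - 1 ≤ 0)]
      simp only [sub_zero, one_smul, zero_smul, add_zero]
      exact hDS _ (hm s hs) _ (hP t ht)
    · rw [not_le] at h
      rw [min_eq_right (by linarith : (1 : ℝ) ≤ 2 * s), max_eq_left (by linarith : 0 ≤ 2 * s - 1)]
      apply hKS
      exact hK (hD1 _ (hP t ht)) (hD1 _ (hP 0 h0)) (by linarith [hs.2]) (by linarith) (by ring)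
  · intro t ht
    simp only
    norm_num
    exact hD0 _ (hP t ht)
  · intro t ht
    simp only
    norm_num
  · intro s hs
    simp only
    rw [hcl]

theorem V_pos (j : ℕ) : 0 < V j := by unfold V; positivity

theorem V_le (j : ℕ) : V j ≤ 1 / 32 := by
  unfold V
  have : ((1 : ℝ) / 2) ^ j ≤ 1 := pow_le_one₀ (by norm_num) (by norm_num)
  linarith

theorem norm_q_le (j : ℕ) : ‖q j‖ ≤ 1 := by
  unfold q
  rw [Complex.norm_real, Real.norm_eq_abs, abs_of_nonneg (by positivity)]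
  exact pow_le_one₀ (by norm_num) (by norm_num)

theorem T3_Cube {p : ℂ × ℝ} (hp : p ∈ T3) : p ∈ Cube :=
  ⟨hp.1.le, hp.2.1.le, hp.2.2.1.le, hp.2.2.2.1.le⟩

theorem M3_eq : M3 = ball (0 : ℂ) 3 ×ˢ Ioo (-1 : ℝ) 0 := by
  ext p
  simp [M3]

theorem M3_open : IsOpen M3 := by
  rw [M3_eq]; exact isOpen_ball.prod isOpen_Ioo

theorem M3_convex : Convex ℝ M3 := by
  rw [M3_eq]; exact (convex_ball _ _).prod (convex_Ioo _ _)

/-- the tubes below the doors lie in the room -/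
theorem tube_M3 (hB : S_GAMB) (j : ℕ) (p : ℂ × ℝ) (hp : p ∈ Cube) (h1 : -1 < p.2) (h0 : p.2 < 0) :
    Gam (V (j + 1)) (q (j + 1)) p ∈ M3 := by
  rw [((hB _ (V_pos (j + 1)) (V_le (j + 1)) (q (j + 1)) p hp.1 hp.2.1 (by linarith)).1 h0.le)]
  refine ⟨?_, h1, h0⟩
  simp only
  have h2 : ‖p.1‖ ≤ 2 := by
    have := Complex.norm_le_abs_re_add_abs_im p.1
    linarith [hp.1, hp.2.1]
  have h3 : ‖((V (j + 1) : ℝ) : ℂ) * p.1‖ ≤ 1 / 32 * 2 := by
    rw [norm_mul, Complex.norm_real, Real.norm_eq_abs, abs_of_pos (V_pos _)]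
    exact mul_le_mul (V_le _) h2 (norm_nonneg _) (by norm_num)
  calc ‖q (j + 1) + ((V (j + 1) : ℝ) : ℂ) * p.1‖ ≤ ‖q (j + 1)‖ + ‖((V (j + 1) : ℝ) : ℂ) * p.1‖ :=
        norm_add_le _ _
    _ ≤ 1 + 1 / 32 * 2 := add_le_add (norm_q_le _) h3
    _ < 3 := by norm_num

/-- the tubes above the doors are outside the room -/
theorem tube_not_M3 (hB : S_GAMB) (j : ℕ) (p : ℂ × ℝ) (hp : p ∈ Cube) (h0 : 0 ≤ p.2) :
    Gam (V (j + 1)) (q (j + 1)) p ∉ M3 := by
  intro h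
  have h1 := ((hB _ (V_pos (j + 1)) (V_le (j + 1)) (q (j + 1)) p hp.1 hp.2.1 hp.2.2.2).2.2.1 h0).2.1
  linarith [h.2.2]

/-- uniqueness of the tube coordinates -/
theorem tube_unique (_hB : S_GAMB) (hC : S_GAMC) (hS : S_SEP) (i j : ℕ) (p p' : ℂ × ℝ)
    (hp : p ∈ Cube) (hp' : p' ∈ Cube) (h0 : 0 ≤ p.2) (h0' : 0 ≤ p'.2)
    (h : Gam (V (i + 1)) (q (i + 1)) p = Gam (V (j + 1)) (q (j + 1)) p') : i = j ∧ p = p' := by
  have hij : i = j := by
    by_contra hne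
    exact hS.1 i j hne p p' hp hp' h0 h0' h
  subst hij
  obtain ⟨-, g, -, hg⟩ := hC _ (V_pos (i + 1)) (V_le (i + 1)) (q (i + 1))
  refine ⟨rfl, ?_⟩
  rw [← hg p hp, ← hg p' hp', h]

open Classical in
/-- the push -/
noncomputable def DA (x : ℝ × (ℂ × ℝ)) : ℂ × ℝ :=
  if x.2 ∈ M3 then (x.2.1, (1 - x.1) * x.2.2 - x.1 / 2)
  else if h : ∃ jp : ℕ × (ℂ × ℝ), jp.2 ∈ T3 ∧ x.2 = Gam (V (jp.1 + 1)) (q (jp.1 + 1)) jp.2 then
    Gam (V (h.choose.1 + 1)) (q (h.choose.1 + 1)) (h.choose.2.1, (1 - x.1) * h.choose.2.2 - x.1 / 2)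
  else 0

theorem DA_M3 (s : ℝ) (w : ℂ × ℝ) (hw : w ∈ M3) : DA (s, w) = (w.1, (1 - s) * w.2 - s / 2) := by
  rw [DA, if_pos hw]

theorem DA_tube (hB : S_GAMB) (hC : S_GAMC) (hS : S_SEP) (s : ℝ) (hs : s ∈ Icc (0 : ℝ) 1) (j : ℕ)
    (p : ℂ × ℝ) (hp : p ∈ T3) : DA (s, Gam (V (j + 1)) (q (j + 1)) p) =
      Gam (V (j + 1)) (q (j + 1)) (p.1, (1 - s) * p.2 - s / 2) := by
  have hpC := T3_Cube hp
  by_cases h0 : p.2 < 0
  · have hM := tube_M3 hB j p hpC hp.2.2.1 h0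
    rw [DA_M3 _ _ hM]
    have e1 := (hB _ (V_pos (j + 1)) (V_le _) (q (j + 1)) p hpC.1 hpC.2.1 hpC.2.2.2).1 h0.le
    have hneg : (1 - s) * p.2 - s / 2 ≤ 0 := by
      have : 0 ≤ (1 - s) * (-p.2) := mul_nonneg (by linarith [hs.2]) (by linarith)
      linarith [hs.1]
    have e2 := (hB _ (V_pos (j + 1)) (V_le _) (q (j + 1)) (p.1, (1 - s) * p.2 - s / 2) hpC.1 hpC.2.1
      (by simp only; linarith)).1 hneg
    rw [e1, e2]
  · rw [not_lt] at h0
    have hnM := tube_not_M3 hB j p hpC h0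
    have hex : ∃ jp : ℕ × (ℂ × ℝ), jp.2 ∈ T3 ∧
        Gam (V (j + 1)) (q (j + 1)) p = Gam (V (jp.1 + 1)) (q (jp.1 + 1)) jp.2 :=
      ⟨(j, p), hp, rfl⟩
    rw [DA]
    simp only
    rw [if_neg hnM, dif_pos hex]
    have hch := hex.choose_spec
    have hc0 : 0 ≤ hex.choose.2.2 := by
      by_contra hneg
      rw [not_le] at hneg
      apply hnM
      rw [hch.2]
      exact tube_M3 hB _ _ (T3_Cube hch.1) hch.1.2.2.1 hneg
    obtain ⟨h1, h2⟩ := tube_unique hB hC hS _ _ _ _ hpC (T3_Cube hch.1) h0 hc0 hch.2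
    rw [← h1, ← h2]

theorem DA_cont (hB : S_GAMB) (hC : S_GAMC) (hS : S_SEP) :
    ContinuousOn DA (Icc (0 : ℝ) 1 ×ˢ Om3') := by
  rintro ⟨s, w⟩ ⟨hs, hw⟩
  simp only at hs hw
  rcases hw with hw | hw
  · have h1 : (fun x : ℝ × (ℂ × ℝ) => ((x.2.1, (1 - x.1) * x.2.2 - x.1 / 2) : ℂ × ℝ)) =ᶠ[𝓝 (s, w)]
        DA := by
      have hopen : IsOpen {x : ℝ × (ℂ × ℝ) | x.2 ∈ M3} := M3_open.preimage continuous_snd
      filter_upwards [hopen.mem_nhds (show (s, w) ∈ {x : ℝ × (ℂ × ℝ) | x.2 ∈ M3} from hw)] with x hx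
      exact (DA_M3 x.1 x.2 hx).symm
    have h2 : ContinuousAt (fun x : ℝ × (ℂ × ℝ) =>
        ((x.2.1, (1 - x.1) * x.2.2 - x.1 / 2) : ℂ × ℝ)) (s, w) := by
      fun_prop
    exact (h2.congr h1).continuousWithinAt
  · rw [mem_iUnion] at hw
    obtain ⟨j, p, hp, rfl⟩ := hw
    obtain ⟨r, hr, hrr⟩ := hS.2.1 j p hp
    obtain ⟨hGc, g, hgc, hg⟩ := hC _ (V_pos (j + 1)) (V_le (j + 1)) (q (j + 1))
    set G := Gam (V (j + 1)) (q (j + 1)) with hG
    have hΦ : ContinuousOn (fun x : ℝ × (ℂ × ℝ) =>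
        G ((g x.2).1, (1 - x.1) * (g x.2).2 - x.1 / 2)) (Icc (0 : ℝ) 1 ×ˢ (G '' T3)) := by
      have hg2 : ContinuousOn (fun x : ℝ × (ℂ × ℝ) => g x.2) (Icc (0 : ℝ) 1 ×ˢ (G '' T3)) := by
        apply hgc.comp continuousOn_snd
        rintro x ⟨-, y, hy, hxy⟩
        exact ⟨y, T3_Cube hy, hxy⟩
      apply hGc.comp
      · apply ContinuousOn.prodMk
        · exact hg2.fst
        · exact ((continuousOn_const.sub continuousOn_fst).mul hg2.snd).sub
            (continuousOn_fst.div_const 2)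
      · rintro ⟨s', x⟩ ⟨hs', y, hy, hxy⟩
        simp only at hs' hxy
        have hyC := T3_Cube hy
        simp only
        rw [← hxy, hg y hyC]
        refine ⟨hyC.1, hyC.2.1, ?_, ?_⟩
        · simp only
          nlinarith [hs'.1, hs'.2, hyC.2.2.1]
        · simp only
          nlinarith [hs'.1, hs'.2, hyC.2.2.2]
    have h3 : ContinuousWithinAt DA (Icc (0 : ℝ) 1 ×ˢ (G '' T3)) (s, G p) := by
      apply (hΦ (s, G p) ⟨hs, p, hp, rfl⟩).congr
      · rintro ⟨s', x⟩ ⟨hs', y, hy, hxy⟩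
        simp only at hs' hxy
        simp only
        rw [← hxy, hg y (T3_Cube hy)]
        exact DA_tube hB hC hS s' hs' j y hy
      · simp only
        rw [hg p (T3_Cube hp)]
        exact DA_tube hB hC hS s hs j p hp
    apply h3.mono_of_mem_nhdsWithin
    have hb : {x : ℝ × (ℂ × ℝ) | ‖x.2 - G p‖ < r} ∈ 𝓝 (s, G p) := by
      have hopen : IsOpen {x : ℝ × (ℂ × ℝ) | ‖x.2 - G p‖ < r} :=
        isOpen_lt (by fun_prop) continuous_const
      apply hopen.mem_nhds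
      simp [hr]
    filter_upwards [self_mem_nhdsWithin, mem_nhdsWithin_of_mem_nhds hb] with x hx hx2
    exact ⟨hx.1, hrr x.2 hx.2 hx2⟩

theorem t_NUA : S_GAMB → S_GAMC → S_SEP → S_NUA := by
  intro hB hC hS lev hlev γ hγ hγ2 hcl
  apply null_of_push Om3' M3 {w | w ∈ Om3' ∧ lev w < 1 / 2} M3_convex subset_union_left γ DA hγ hcl
    hγ2 ((DA_cont hB hC hS).mono (by rintro x ⟨h1, h2⟩; exact ⟨h1, h2.1⟩))
  · rintro s hs w ⟨hw, hl⟩
    rcases hw with hw | hw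
    · rw [DA_M3 s w hw]
      left
      refine ⟨hw.1, ?_, ?_⟩
      · simp only; nlinarith [hs.1, hs.2, hw.2.1, hw.2.2]
      · simp only; nlinarith [hs.1, hs.2, hw.2.1, hw.2.2]
    · rw [mem_iUnion] at hw
      obtain ⟨j, p, hp, rfl⟩ := hw
      rw [hlev.2 j p hp] at hl
      rw [DA_tube hB hC hS s hs j p hp]
      right
      rw [mem_iUnion]
      refine ⟨j, (p.1, (1 - s) * p.2 - s / 2), ⟨hp.1, hp.2.1, ?_, ?_, ?_⟩, rfl⟩
      · simp only; nlinarith [hs.1, hs.2, hp.2.2.1]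
      · simp only; nlinarith [hs.1, hs.2, hp.2.2.2.1]
      · rintro ⟨-, h1, -⟩
        simp only at h1
        rcases eq_or_lt_of_le hs.1 with h | h
        · rw [← h] at h1; linarith
        · nlinarith [hs.2]
  · rintro w ⟨hw, hl⟩
    rcases hw with hw | hw
    · rw [DA_M3 0 w hw]; simp
    · rw [mem_iUnion] at hw
      obtain ⟨j, p, hp, rfl⟩ := hw
      rw [DA_tube hB hC hS 0 ⟨le_refl _, zero_le_one⟩ j p hp]
      simp
  · rintro w ⟨hw, hl⟩
    rcases hw with hw | hw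
    · rw [DA_M3 1 w hw]
      refine ⟨hw.1, ?_, ?_⟩
      · norm_num
      · norm_num
    · rw [mem_iUnion] at hw
      obtain ⟨j, p, hp, rfl⟩ := hw
      rw [DA_tube hB hC hS 1 ⟨zero_le_one, le_refl _⟩ j p hp]
      have hpC := T3_Cube hp
      apply tube_M3 hB j
      · exact ⟨hpC.1, hpC.2.1, by norm_num, by norm_num⟩
      · norm_num
      · norm_num

/-- a loop in `T3` pushed to the slice of level `a` -/
theorem slice_null (P : Set (ℂ × ℝ)) (a : ℝ) (ha : -1 < a) (ha1 : a < 1)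
    (haP : ∀ s ∈ Icc (0 : ℝ) 1, ∀ p ∈ P, (p.1, (1 - s) * p.2 + s * a) ∈ T3)
    (hK : ∀ z : ℂ, |z.re| < 1 → |z.im| < 1 → (z, a) ∈ T3)
    (hPT : P ⊆ T3) (δ : ℝ → ℂ × ℝ) (hδ : ContinuousOn δ (Icc 0 1)) (hcl : δ 0 = δ 1)
    (hP : ∀ t ∈ Icc (0 : ℝ) 1, δ t ∈ P) : NullIn T3 δ := by
  have hconv : Convex ℝ {p : ℂ × ℝ | |p.1.re| < 1 ∧ |p.1.im| < 1 ∧ p.2 = a} := by
    intro x hx y hy b c hb hc hbc
    refine ⟨?_, ?_, ?_⟩
    · have h1 := abs_lt.mp hx.1
      have h2 := abs_lt.mp hy.1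
      have e : (b • x + c • y).1.re = b * x.1.re + c * y.1.re := by simp
      rw [e, abs_lt]
      rcases eq_or_lt_of_le hb with h | h
      · have : c = 1 := by linarith
        rw [← h, this]; constructor <;> linarith
      · constructor <;> nlinarith
    · have h1 := abs_lt.mp hx.2.1
      have h2 := abs_lt.mp hy.2.1
      have e : (b • x + c • y).1.im = b * x.1.im + c * y.1.im := by simp
      rw [e, abs_lt]
      rcases eq_or_lt_of_le hb with h | h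
      · have : c = 1 := by linarith
        rw [← h, this]; constructor <;> linarith
      · constructor <;> nlinarith
    · have e : (b • x + c • y).2 = b * x.2 + c * y.2 := by simp
      rw [e, hx.2.2, hy.2.2, ← add_mul, hbc, one_mul]
  apply null_of_push T3 {p : ℂ × ℝ | |p.1.re| < 1 ∧ |p.1.im| < 1 ∧ p.2 = a} P hconv ?_ δ
    (fun x => (x.2.1, (1 - x.1) * x.2.2 + x.1 * a)) hδ hcl hP
  · apply Continuous.continuousOn
    fun_prop
  · intro s hs w hw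
    exact haP s hs w hw
  · intro w hw
    simp
  · intro w hw
    have h := hPT hw
    refine ⟨h.1, h.2.1, ?_⟩
    simp
  · rintro ⟨z, y⟩ ⟨h1, h2, h3⟩
    simp only at h1 h2 h3
    rw [h3]
    exact hK z h1 h2

theorem t_NUB : S_GAMB → S_GAMC → S_SEP → S_NUB := by
  intro hB hC hS lev hlev γ hγ hγO hcl hlv
  have hpos : ∀ t ∈ Icc (0 : ℝ) 1, 0 < lev (γ t) := by
    intro t ht
    rcases hlv with h | h
    · exact (h t ht).1
    · linarith [h t ht]
  have hex : ∀ t ∈ Icc (0 : ℝ) 1, ∃ j : ℕ, γ t ∈ Gam (V (j + 1)) (q (j + 1)) '' T3 := by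
    intro t ht
    rcases hγO t ht with h | h
    · have h1 := hlev.1 _ h
      have h2 := hpos t ht
      rw [h1] at h2
      linarith [h.2.2]
    · rw [mem_iUnion] at h; exact h
  classical
  set J : ℝ → ℕ := fun t => if ht : t ∈ Icc (0 : ℝ) 1 then (hex t ht).choose else 0 with hJ
  have hJs : ∀ t ∈ Icc (0 : ℝ) 1, γ t ∈ Gam (V (J t + 1)) (q (J t + 1)) '' T3 := by
    intro t ht
    simp only [hJ, dif_pos ht]
    exact (hex t ht).choose_spec
  have huniq : ∀ t ∈ Icc (0 : ℝ) 1, ∀ i, γ t ∈ Gam (V (i + 1)) (q (i + 1)) '' T3 → i = J t := by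
    rintro t ht i ⟨p, hp, hpe⟩
    obtain ⟨p', hp', hpe'⟩ := hJs t ht
    have h1 : p.2 = lev (γ t) := by rw [← hpe, hlev.2 i p hp]
    have h2 : p'.2 = lev (γ t) := by rw [← hpe', hlev.2 (J t) p' hp']
    have h3 := hpos t ht
    exact (tube_unique hB hC hS i (J t) p p' (T3_Cube hp) (T3_Cube hp') (by linarith) (by linarith)
      (by rw [hpe, hpe'])).1
  have hJc : ContinuousOn J (Icc 0 1) := by
    intro t ht
    obtain ⟨p, hp, hpe⟩ := hJs t ht
    obtain ⟨r, hr, hrr⟩ := hS.2.1 (J t) p hp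
    have h1 : ∀ᶠ t' in 𝓝[Icc 0 1] t, J t' = J t := by
      have h2 : ∀ᶠ t' in 𝓝[Icc 0 1] t, ‖γ t' - γ t‖ < r := by
        have := (hγ t ht)
        have h3 := Metric.continuousWithinAt_iff'.mp this r hr
        filter_upwards [h3] with t' ht'
        rwa [dist_eq_norm] at ht'
      filter_upwards [h2, self_mem_nhdsWithin] with t' ht' ht'm
      rw [← hpe] at ht'
      have h4 := hrr (γ t') (hγO t' ht'm) ht'
      exact (huniq t' ht'm (J t) h4).symm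
    have h5 : Tendsto J (𝓝[Icc 0 1] t) (pure (J t)) := by
      rw [tendsto_pure]; exact h1
    exact h5.mono_right (pure_le_nhds _)
  have hJconst : ∀ t ∈ Icc (0 : ℝ) 1, J t = J 0 := by
    intro t ht
    exact isPreconnected_Icc.constant hJc ht ⟨le_refl _, zero_le_one⟩
  set j := J 0 with hj
  obtain ⟨hGc, g, hgc, hg⟩ := hC _ (V_pos (j + 1)) (V_le (j + 1)) (q (j + 1))
  set G := Gam (V (j + 1)) (q (j + 1)) with hG
  have hγj : ∀ t ∈ Icc (0 : ℝ) 1, γ t ∈ G '' T3 := by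
    intro t ht
    have := hJs t ht
    rwa [hJconst t ht] at this
  have hδT : ∀ t ∈ Icc (0 : ℝ) 1, g (γ t) ∈ T3 ∧ G (g (γ t)) = γ t ∧
      (g (γ t)).2 = lev (γ t) := by
    intro t ht
    obtain ⟨p, hp, hpe⟩ := hγj t ht
    rw [← hpe, hg p (T3_Cube hp)]
    exact ⟨hp, rfl, (hlev.2 j p hp).symm⟩
  have hδc : ContinuousOn (fun t => g (γ t)) (Icc 0 1) := by
    apply hgc.comp hγ
    intro t ht
    obtain ⟨p, hp, hpe⟩ := hγj t ht
    exact ⟨p, T3_Cube hp, hpe⟩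
  have hnull : NullIn T3 (fun t => g (γ t)) := by
    rcases hlv with h | h
    · apply slice_null {p | p ∈ T3 ∧ p.2 < 3 / 4} (3 / 8) (by norm_num) (by norm_num) ?_ ?_
        (fun p hp => hp.1) _ hδc (by simp only [hcl])
      · intro t ht
        refine ⟨(hδT t ht).1, ?_⟩
        rw [(hδT t ht).2.2]
        exact (h t ht).2
      · rintro s hs p ⟨hp, hp4⟩
        refine ⟨hp.1, hp.2.1, ?_, ?_, ?_⟩
        · simp only; nlinarith [hs.1, hs.2, hp.2.2.1]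
        · simp only; nlinarith [hs.1, hs.2, hp.2.2.2.1]
        · rintro ⟨h1, h2, h3⟩
          simp only at h1 h2 h3
          have h5 : p.2 < 1 / 2 := by
            by_contra h6
            exact hp.2.2.2.2 ⟨h1, not_lt.mp h6, hp4.le⟩
          rcases eq_or_lt_of_le hs.1 with h6 | h6
          · rw [← h6] at h2; linarith
          · nlinarith [hs.2]
      · intro z hz1 hz2
        refine ⟨hz1, hz2, by norm_num, by norm_num, ?_⟩
        rintro ⟨-, h1, -⟩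
        norm_num at h1
    · apply slice_null {p | p ∈ T3 ∧ 1 / 2 < p.2} (7 / 8) (by norm_num) (by norm_num) ?_ ?_
        (fun p hp => hp.1) _ hδc (by simp only [hcl])
      · intro t ht
        refine ⟨(hδT t ht).1, ?_⟩
        rw [(hδT t ht).2.2]
        exact h t ht
      · rintro s hs p ⟨hp, hp4⟩
        refine ⟨hp.1, hp.2.1, ?_, ?_, ?_⟩
        · simp only; nlinarith [hs.1, hs.2, hp.2.2.1]
        · simp only; nlinarith [hs.1, hs.2, hp.2.2.2.1]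
        · rintro ⟨h1, h2, h3⟩
          simp only at h1 h2 h3
          have h5 : 3 / 4 < p.2 := by
            by_contra h6
            exact hp.2.2.2.2 ⟨h1, hp4.le, not_lt.mp h6⟩
          rcases eq_or_lt_of_le hs.1 with h6 | h6
          · rw [← h6] at h3; linarith
          · nlinarith [hs.2]
      · intro z hz1 hz2
        refine ⟨hz1, hz2, by norm_num, by norm_num, ?_⟩
        rintro ⟨-, -, h1⟩
        norm_num at h1
  obtain ⟨H, hH1, hH2, hH3, hH4, hH5⟩ := hnull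
  refine ⟨fun p => G (H p), ?_, ?_, ?_, ?_, ?_⟩
  · apply hGc.comp hH1
    intro p hp
    exact T3_Cube (hH2 p hp)
  · intro p hp
    right
    rw [mem_iUnion]
    exact ⟨j, H p, hH2 p hp, rfl⟩
  · intro t ht
    simp only
    rw [hH3 t ht]
    exact (hδT t ht).2.1
  · intro t ht
    simp only
    rw [hH4 t ht]
  · intro s hs
    simp only
    rw [hH5 s hs]

end Run7.h648.SC
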